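import Pool.Agent.Q248.TI.Exist

/-!
# The maximum size of a `t`-independent set is not monotone along even `n`

For every `t ≡ 1 (mod 4)` with `t ≥ 5` the sequence `τ_±(ℤ_n,[1,t])`, `n` even, is neither
nondecreasing nor nonincreasing.
-/

namespace Pool.Agent.Results.MP_8fcc33_co.NotMonotone

open Finset Pool.Agent.Q248.TI

/-- **Theorem.** For every `t ≡ 1 (mod 4)` with `t ≥ 5` (so in particular for `t = 5`) the sequence
`τ_±(ℤ_n,[1,t])`, `n = 2, 4, 6, …`, is not monotone. -/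
theorem result (t : ℕ) (ht : t % 4 = 1) (ht5 : 5 ≤ t) :
    ¬ (Monotone (fun k : ℕ => tau (2 * (k + 1)) t) ∨
      Antitone (fun k : ℕ => tau (2 * (k + 1)) t)) := by
  obtain ⟨r, hr⟩ : ∃ r, t = 4 * r + 1 := ⟨t / 4, by omega⟩
  obtain ⟨s, hs⟩ : ∃ s, s = 2 * r + 1 := ⟨_, rfl⟩
  have hts : t = 2 * s - 1 := by omega
  have hs3 : 3 ≤ s := by omega
  have hso : Odd s := ⟨r, hs⟩
  have hss : s ≤ s * s := by nlinarith
  have hmod : (s * s) % 2 = 1 := Nat.odd_iff.1 (hso.mul hso)
  have h2 : tau (2 * ((s * s - 1) + 1)) t ≥ 2 := by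
    have hn : 2 * ((s * s - 1) + 1) = 2 * s * s := by
      rw [mul_assoc]; omega
    rw [hn]
    have := (PI.of_two_mod_four (n := 2 * s * s) hso hs3 (by rw [mul_assoc]; omega)
      le_rfl).two_le_tau (by rw [mul_assoc]; omega) (by omega : 2 ≤ 2 * s - 1)
    rw [← hts] at this
    exact this
  have h1 : tau (2 * ((s * s) + 1)) t ≤ 1 := by
    apply tau_le_one
    intro a b hPI
    rw [hts] at hPI
    exact hPI.not_four (by omega) hso (by rw [mul_assoc]; omega) (by omega)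
  have h0 : tau (2 * (0 + 1)) t = 0 := tau_zero (by norm_num) (by omega)
  rintro (hm | hm)
  · have h3 : tau (2 * ((s * s - 1) + 1)) t ≤ tau (2 * ((s * s) + 1)) t := hm (Nat.sub_le _ _)
    omega
  · have h3 : tau (2 * ((s * s - 1) + 1)) t ≤ tau (2 * (0 + 1)) t := hm (Nat.zero_le _)
    omega

end Pool.Agent.Results.MP_8fcc33_co.NotMonotone
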